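import Pool.Agent.Q158.ModelCountC

/-! Formula size for a prescribed model count is not polynomially bounded in the logarithm of the
number of blocks of ones. -/

namespace Pool.Agent.Results.MP_94c5d9_co.NotPolylog

open Q158.ModelCount

/-- For all `b ≥ 1` there are arbitrarily large `k` with exactly `b` blocks of ones such that
every DNF or CNF with exactly `k` models has at least `√⌊b/2⌋` terms or clauses; therefore
`β(k)` is not bounded by a polynomial in `log₂ bl(k)`. -/
theorem result :
    (∀ b c : ℕ, 1 ≤ b → ∃ k, c ≤ k ∧ bl k = b ∧ b / 2 ≤ beta k ^ 2) ∧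
    ¬ ∃ (C : ℝ) (f : Polynomial ℝ), ∀ k : ℕ, 1 ≤ k →
      (beta k : ℝ) ≤ C * f.eval (Real.logb 2 (bl k)) :=
  ⟨fun b c hb => ⟨kk b c, kk_ge b c hb, bl_kk b c, beta_bound b c hb⟩, not_poly⟩

end Pool.Agent.Results.MP_94c5d9_co.NotPolylog
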